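import Pool.Agent.Q78.WI.Stm

/-!
Project WI, job E2: traces of powers and `det (1 + t h)` from the eigenvalues.
-/

set_option autoImplicit false

open Matrix

namespace Pool.Agent.Q13.WI

open Pool.Agent.Q78.WI

theorem e2 : S_E2 := by
  intro d h hh
  set U : Matrix (Fin d) (Fin d) ℝ := (hh.eigenvectorUnitary : Matrix (Fin d) (Fin d) ℝ) with hU
  set D : Matrix (Fin d) (Fin d) ℝ := diagonal hh.eigenvalues with hD
  have hUU : star U * U = 1 := Unitary.coe_star_mul_self hh.eigenvectorUnitary
  have hUU' : U * star U = 1 := Unitary.coe_mul_star_self hh.eigenvectorUnitary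
  have hspec : h = U * D * star U := by
    have h1 := hh.spectral_theorem
    rw [Unitary.conjStarAlgAut_apply] at h1
    exact h1
  have hmul : ∀ A B : Matrix (Fin d) (Fin d) ℝ, (U * A * star U) * (U * B * star U) =
      U * (A * B) * star U := by
    intro A B
    calc (U * A * star U) * (U * B * star U) = U * A * (star U * U) * B * star U := by
          simp only [Matrix.mul_assoc]
      _ = U * (A * B) * star U := by
          rw [hUU, Matrix.mul_one]; simp only [Matrix.mul_assoc]
  have htr : ∀ A : Matrix (Fin d) (Fin d) ℝ, (U * A * star U).trace = A.trace := by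
    intro A
    rw [Matrix.trace_mul_comm, ← Matrix.mul_assoc, hUU, Matrix.one_mul]
  refine ⟨hh.eigenvalues, fun hp i => hp.eigenvalues_nonneg i, ?_, ?_, ?_, ?_⟩
  · conv_lhs => rw [hspec]
    rw [htr, hD, Matrix.trace_diagonal]
  · conv_lhs => rw [hspec]
    rw [hmul, htr, hD, Matrix.diagonal_mul_diagonal, Matrix.trace_diagonal]
    exact Finset.sum_congr rfl fun i _ => by ring
  · conv_lhs => rw [hspec]
    rw [hmul, hmul, htr, hD, Matrix.diagonal_mul_diagonal, Matrix.diagonal_mul_diagonal,
      Matrix.trace_diagonal]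
    exact Finset.sum_congr rfl fun i _ => by ring
  · intro t
    have h1 : 1 + t • h = U * (1 + t • D) * star U := by
      conv_lhs => rw [hspec]
      rw [Matrix.mul_add, Matrix.add_mul, Matrix.mul_one, hUU', Matrix.mul_smul, Matrix.smul_mul]
    rw [h1, Matrix.det_mul_comm, ← Matrix.mul_assoc, hUU, Matrix.one_mul]
    have h2 : (1 : Matrix (Fin d) (Fin d) ℝ) + t • D =
        diagonal (fun i => 1 + t * hh.eigenvalues i) := by
      rw [hD, ← Matrix.diagonal_one, ← Matrix.diagonal_smul, Matrix.diagonal_add]
      rfl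
    rw [h2, Matrix.det_diagonal]

end Pool.Agent.Q13.WI
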